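import Mathlib

/-!
An improving response cycle in a variety-seeking jump game with exactly two empty nodes.
-/

namespace Pool.Agent.Results.MP_3e19fa_lc.Cycle

variable {V A T : Type} [Fintype V] [DecidableEq V] [Fintype A] [DecidableEq A]
  [Fintype T] [DecidableEq T]

/-- Utility of agent `i` in the assignment `σ`: the number of types different from the type of
`i` occurring among the agents that occupy neighbours of the node of `i`. -/
def util (G : SimpleGraph V) [DecidableRel G.Adj] (ty : A → T) (σ : A → V) (i : A) : ℕ :=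
  (Finset.univ.filter fun t : T => t ≠ ty i ∧ ∃ j : A, ty j = t ∧ G.Adj (σ i) (σ j)).card

/-- `σ'` arises from the assignment `σ` by an improving jump of one agent to an empty node. -/
def ImprovingJump (G : SimpleGraph V) [DecidableRel G.Adj] (ty : A → T) (σ σ' : A → V) : Prop :=
  ∃ (i : A) (v : V), (∀ j, σ j ≠ v) ∧ σ' = Function.update σ i v ∧
    util G ty σ i < util G ty σ' i

/-- An improving response cycle `σ₀, …, σ_m = σ₀`, `m ≥ 1`, of (injective) assignments. -/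
def HasIRC (G : SimpleGraph V) [DecidableRel G.Adj] (ty : A → T) : Prop :=
  ∃ (m : ℕ) (σ : Fin (m + 1) → A → V), 1 ≤ m ∧ (∀ j, Function.Injective (σ j)) ∧
    σ (Fin.last m) = σ 0 ∧ ∀ j : Fin m, ImprovingJump G ty (σ j.castSucc) (σ j.succ)

def edges : List (Fin 8 × Fin 8) :=
  [(0, 2), (1, 2), (1, 3), (2, 3), (0, 4), (3, 4), (1, 5), (0, 6), (1, 6), (4, 6), (5, 6), (0, 7),
    (2, 7), (5, 7)]

def G₀ : SimpleGraph (Fin 8) where
  Adj u v := (u, v) ∈ edges ∨ (v, u) ∈ edges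
  symm := ⟨fun _ _ h => h.symm⟩
  loopless := ⟨by decide⟩

instance : DecidableRel G₀.Adj := fun u v =>
  inferInstanceAs (Decidable ((u, v) ∈ edges ∨ (v, u) ∈ edges))

def ty₀ : Fin 6 → Fin 3 := ![1, 2, 1, 2, 0, 0]

def σ₀ : Fin 25 → Fin 6 → Fin 8 :=
  ![![1, 2, 3, 4, 5, 6],
    ![1, 2, 7, 4, 5, 6],
    ![1, 0, 7, 4, 5, 6],
    ![1, 0, 7, 4, 3, 6],
    ![2, 0, 7, 4, 3, 6],
    ![2, 0, 7, 5, 3, 6],
    ![2, 0, 7, 5, 3, 1],
    ![2, 0, 4, 5, 3, 1],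
    ![2, 6, 4, 5, 3, 1],
    ![2, 6, 4, 5, 7, 1],
    ![0, 6, 4, 5, 7, 1],
    ![0, 6, 4, 3, 7, 1],
    ![0, 6, 4, 3, 7, 2],
    ![0, 6, 5, 3, 7, 2],
    ![0, 1, 5, 3, 7, 2],
    ![0, 1, 5, 3, 4, 2],
    ![6, 1, 5, 3, 4, 2],
    ![6, 1, 5, 7, 4, 2],
    ![6, 1, 5, 7, 4, 0],
    ![6, 1, 3, 7, 4, 0],
    ![6, 2, 3, 7, 4, 0],
    ![6, 2, 3, 7, 5, 0],
    ![1, 2, 3, 7, 5, 0],
    ![1, 2, 3, 4, 5, 0],
    ![1, 2, 3, 4, 5, 6]]

def ag : Fin 24 → Fin 6 := ![2, 1, 4, 0, 3, 5, 2, 1, 4, 0, 3, 5, 2, 1, 4, 0, 3, 5, 2, 1, 4, 0, 3, 5]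

def tg : Fin 24 → Fin 8 := ![7, 0, 3, 2, 5, 1, 4, 6, 7, 0, 3, 2, 5, 1, 4, 6, 7, 0, 3, 2, 5, 1, 4, 6]

lemma steps : ∀ j : Fin 24, (∀ a, σ₀ j.castSucc a ≠ tg j) ∧
    σ₀ j.succ = Function.update (σ₀ j.castSucc) (ag j) (tg j) ∧
    util G₀ ty₀ (σ₀ j.castSucc) (ag j) < util G₀ ty₀ (σ₀ j.succ) (ag j) := by
  decide +kernel

/-- A connected graph on `8 = 6 + 2` nodes with six agents of three types (two of each type)
that admits an improving response cycle. -/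
theorem result : ∃ (n k : ℕ) (G : SimpleGraph (Fin (n + 2))) (_ : DecidableRel G.Adj)
    (ty : Fin n → Fin k), 2 ≤ k ∧ Function.Surjective ty ∧ G.Connected ∧ HasIRC G ty := by
  refine ⟨6, 3, G₀, inferInstance, ty₀, by norm_num, by decide, by decide +kernel, 24, σ₀,
    by norm_num, by decide +kernel, by decide +kernel, fun j => ⟨ag j, tg j, steps j⟩⟩

end Pool.Agent.Results.MP_3e19fa_lc.Cycle
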